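import Pool.Agent.Run7.h146.Met.I2

/-!
Piece MAIN2 of helper146's theorem on annihilating ballistic meteors (MP_dd21b1_pr).
Author: helper559.
-/

set_option autoImplicit false

open MeasureTheory Filter Topology ENNReal
open Run7.h146.Met

namespace Run7.h559.Met

/-! ### finite sets of good scales -/

theorem exists_J (u : ℕ → ℝ) (hu : ∀ j, 0 ≤ u j) (hns : ¬ Summable u) :
    ∃ ρ : ℕ, ∀ (j₀ : ℕ) (B : ℝ), ∃ n₁ : ℕ, B ≤ ∑ j ∈ (Finset.Ico j₀ n₁).filter
      (fun j => j % 3 = ρ), u j := by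
  classical
  have h1 : ∃ ρ : ℕ, ¬ Summable fun j => if j % 3 = ρ then u j else 0 := by
    by_contra hcon
    push Not at hcon
    apply hns
    have h2 : Summable fun j => ∑ ρ ∈ Finset.range 3, if j % 3 = ρ then u j else 0 :=
      summable_sum fun ρ _ => hcon ρ
    refine h2.congr fun j => ?_
    rw [Finset.sum_ite_eq]
    rw [if_pos (Finset.mem_range.2 (Nat.mod_lt _ (by norm_num)))]
  obtain ⟨ρ, hρ⟩ := h1
  refine ⟨ρ, fun j₀ B => ?_⟩
  have h0 : ∀ j, 0 ≤ (if j % 3 = ρ then u j else 0) := by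
    intro j
    split_ifs
    · exact hu j
    · exact le_rfl
  have h2 := (not_summable_iff_tendsto_nat_atTop_of_nonneg h0).1 hρ
  obtain ⟨n, hn1, hn2⟩ := ((h2.eventually_ge_atTop
    (B + ∑ j ∈ Finset.range j₀, if j % 3 = ρ then u j else 0)).and
    (eventually_ge_atTop j₀)).exists
  refine ⟨n, ?_⟩
  rw [Finset.sum_filter, Finset.sum_Ico_eq_sub _ hn2]
  linarith

theorem ofReal_sum_le' (J : Finset ℕ) (y : ℕ → ℝ) :
    ENNReal.ofReal (∑ j ∈ J, y j) ≤ ∑ j ∈ J, ENNReal.ofReal (y j) := by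
  classical
  induction J using Finset.induction_on with
  | empty => simp
  | insert a s ha ih =>
    rw [Finset.sum_insert ha, Finset.sum_insert ha]
    exact ENNReal.ofReal_add_le.trans (add_le_add le_rfl ih)

/-! ### the second moment method -/

theorem core_pz (hPZ : S_PZ) (α : Type) [MeasurableSpace α] (μ : Measure α)
    [IsProbabilityMeasure μ] (A : Set α) (hA : MeasurableSet A) (J : Finset ℕ)
    (V : ℕ → α → ℝ≥0∞) (hV : ∀ j, Measurable (V j)) (a x D b : ℕ → ℝ) (C : ℝ)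
    (ha : ∀ j, 0 ≤ a j) (hD : ∀ j, 0 ≤ D j) (hb : ∀ j, 0 ≤ b j) (hC : 0 ≤ C)
    (h1 : ∀ j ∈ J, μ A * ENNReal.ofReal (x j) ≤ ∫⁻ F in A, V j F ∂μ)
    (h2 : ∀ j ∈ J, ∫⁻ F in A, V j F ^ 2 ∂μ ≤ μ A * ENNReal.ofReal (D j))
    (h3 : ∀ j ∈ J, ∀ j' ∈ J, j < j' →
      ∫⁻ F in A, V j F * V j' F ∂μ ≤ μ A * ENNReal.ofReal (C * b j * b j'))
    (s t B : ℝ) (hs : 0 < s) (ht : 0 ≤ t) (hts : t ≤ s / 2) (hB : 0 < B)
    (hs1 : s ≤ ∑ j ∈ J, a j * x j)
    (hs2 : ∑ j ∈ J, a j ^ 2 * D j + C * (∑ j ∈ J, a j * b j) ^ 2 ≤ B) :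
    ENNReal.ofReal (s ^ 2 / (4 * B)) * μ A ≤
      μ (A ∩ {F | ENNReal.ofReal t ≤ ∑ j ∈ J, ENNReal.ofReal (a j) * V j F}) := by
  classical
  have hμ : ENNReal.ofReal (μ A).toReal = μ A := ENNReal.ofReal_toReal (measure_ne_top μ A)
  have hm : ∀ j, Measurable fun F => ENNReal.ofReal (a j) * V j F := fun j =>
    (hV j).const_mul _
  refine hPZ α μ A (fun F => ∑ j ∈ J, ENNReal.ofReal (a j) * V j F) s B t hA
    (Finset.measurable_sum _ fun j _ => hm j) hs ht hts ?_ ?_ hB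
  · rw [ENNReal.ofReal_mul hs.le, hμ, lintegral_finsetSum _ fun j _ => hm j]
    calc ENNReal.ofReal s * μ A ≤ ENNReal.ofReal (∑ j ∈ J, a j * x j) * μ A :=
          mul_le_mul_left (ENNReal.ofReal_le_ofReal hs1) _
      _ ≤ (∑ j ∈ J, ENNReal.ofReal (a j * x j)) * μ A :=
          mul_le_mul_left (ofReal_sum_le' J _) _
      _ = ∑ j ∈ J, ENNReal.ofReal (a j) * (μ A * ENNReal.ofReal (x j)) := by
          rw [Finset.sum_mul]
          refine Finset.sum_congr rfl fun j _ => ?_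
          rw [ENNReal.ofReal_mul (ha j)]
          ring
      _ ≤ ∑ j ∈ J, ENNReal.ofReal (a j) * ∫⁻ F in A, V j F ∂μ :=
          Finset.sum_le_sum fun j hj => mul_le_mul_right (h1 j hj) _
      _ = ∑ j ∈ J, ∫⁻ F in A, ENNReal.ofReal (a j) * V j F ∂μ :=
          Finset.sum_congr rfl fun j _ => (lintegral_const_mul _ (hV j)).symm
  · rw [ENNReal.ofReal_mul hB.le, hμ]
    set M : ℕ → ℕ → ℝ := fun j j' => (if j = j' then D j else 0) + C * b j * b j' with hMdef
    have hM0 : ∀ j j', 0 ≤ M j j' := by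
      intro j j'
      have : 0 ≤ (if j = j' then D j else 0) := by
        split_ifs
        · exact hD j
        · exact le_rfl
      exact add_nonneg this (mul_nonneg (mul_nonneg hC (hb j)) (hb j'))
    have hpair : ∀ j ∈ J, ∀ j' ∈ J, ∫⁻ F in A, V j F * V j' F ∂μ ≤
        μ A * ENNReal.ofReal (M j j') := by
      intro j hj j' hj'
      rcases lt_trichotomy j j' with h | h | h
      · refine (h3 j hj j' hj' h).trans (mul_le_mul_right (ENNReal.ofReal_le_ofReal ?_) _)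
        simp only [hMdef, if_neg h.ne, zero_add, le_refl]
      · subst h
        have e : (fun F => V j F * V j F) = fun F => V j F ^ 2 := by
          ext F; rw [sq]
        rw [e]
        refine (h2 j hj).trans (mul_le_mul_right (ENNReal.ofReal_le_ofReal ?_) _)
        simp only [hMdef, if_true]
        have := mul_nonneg (mul_nonneg hC (hb j)) (hb j)
        linarith
      · have e : (fun F => V j F * V j' F) = fun F => V j' F * V j F := by
          ext F; rw [mul_comm]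
        rw [e]
        refine (h3 j' hj' j hj h).trans (mul_le_mul_right (ENNReal.ofReal_le_ofReal ?_) _)
        simp only [hMdef, if_neg h.ne', zero_add]
        exact le_of_eq (by ring)
    have hexp : ∀ F, (∑ j ∈ J, ENNReal.ofReal (a j) * V j F) ^ 2 =
        ∑ j ∈ J, ∑ j' ∈ J, (ENNReal.ofReal (a j) * ENNReal.ofReal (a j')) *
          (V j F * V j' F) := by
      intro F
      rw [sq, Finset.sum_mul_sum]
      refine Finset.sum_congr rfl fun j _ => Finset.sum_congr rfl fun j' _ => ?_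
      ring
    have hmm : ∀ j j', Measurable fun F => (ENNReal.ofReal (a j) * ENNReal.ofReal (a j')) *
          (V j F * V j' F) := fun j j' => ((hV j).mul (hV j')).const_mul _
    calc ∫⁻ F in A, (∑ j ∈ J, ENNReal.ofReal (a j) * V j F) ^ 2 ∂μ
        = ∑ j ∈ J, ∑ j' ∈ J, (ENNReal.ofReal (a j) * ENNReal.ofReal (a j')) *
            ∫⁻ F in A, V j F * V j' F ∂μ := by
          simp_rw [hexp]
          rw [lintegral_finsetSum _ fun j _ => Finset.measurable_sum _ fun j' _ => hmm j j']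
          refine Finset.sum_congr rfl fun j _ => ?_
          rw [lintegral_finsetSum _ fun j' _ => hmm j j']
          refine Finset.sum_congr rfl fun j' _ => ?_
          exact lintegral_const_mul _ ((hV j).mul (hV j'))
      _ ≤ ∑ j ∈ J, ∑ j' ∈ J, (ENNReal.ofReal (a j) * ENNReal.ofReal (a j')) *
            (μ A * ENNReal.ofReal (M j j')) :=
          Finset.sum_le_sum fun j hj => Finset.sum_le_sum fun j' hj' =>
            mul_le_mul_right (hpair j hj j' hj') _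
      _ = ENNReal.ofReal (∑ j ∈ J, ∑ j' ∈ J, a j * a j' * M j j') * μ A := by
          rw [ENNReal.ofReal_sum_of_nonneg fun j _ => Finset.sum_nonneg fun j' _ =>
            mul_nonneg (mul_nonneg (ha j) (ha j')) (hM0 j j'), Finset.sum_mul]
          refine Finset.sum_congr rfl fun j _ => ?_
          rw [ENNReal.ofReal_sum_of_nonneg fun j' _ =>
            mul_nonneg (mul_nonneg (ha j) (ha j')) (hM0 j j'), Finset.sum_mul]
          refine Finset.sum_congr rfl fun j' _ => ?_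
          rw [ENNReal.ofReal_mul (mul_nonneg (ha j) (ha j')), ENNReal.ofReal_mul (ha j)]
          ring
      _ ≤ ENNReal.ofReal B * μ A := by
          refine mul_le_mul_left (ENNReal.ofReal_le_ofReal (le_trans (le_of_eq ?_) hs2)) _
          have e1 : ∀ j ∈ J, ∑ j' ∈ J, a j * a j' * M j j' =
              a j ^ 2 * D j + C * ((a j * b j) * ∑ j' ∈ J, a j' * b j') := by
            intro j hj
            have e2 : ∀ j' ∈ J, a j * a j' * M j j' =
                (if j = j' then a j ^ 2 * D j else 0) + C * ((a j * b j) * (a j' * b j')) := by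
              intro j' _
              simp only [hMdef]
              split_ifs with h
              · subst h; ring
              · ring
            rw [Finset.sum_congr rfl e2, Finset.sum_add_distrib, Finset.sum_ite_eq, if_pos hj,
              ← Finset.mul_sum, ← Finset.mul_sum]
          rw [Finset.sum_congr rfl e1, Finset.sum_add_distrib, ← Finset.mul_sum,
            ← Finset.sum_mul, sq]

/-! ### sums over scales -/

theorem sum_Vj_le {d : ℕ} (ε : ℝ) (F : Finset (X d)) (n : ℕ) :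
    ∑ j ∈ Finset.range n, Vj ε j F ≤ ∑ i ∈ Finset.range (2 ^ n), Un ε (i : ℝ) F := by
  induction n with
  | zero => simp
  | succ n ih =>
    rw [Finset.sum_range_succ]
    have h : 2 ^ n ≤ 2 ^ (n + 1) := Nat.pow_le_pow_right (by norm_num) (Nat.le_succ n)
    rw [← Finset.sum_range_add_sum_Ico _ h]
    exact add_le_add ih le_rfl

theorem sum_half_le (J : Finset ℕ) : ∑ j ∈ J, (1 / 2 : ℝ) ^ j ≤ 2 := by
  have h := summable_geometric_two
  calc ∑ j ∈ J, (1 / 2 : ℝ) ^ j ≤ ∑' j : ℕ, (1 / 2 : ℝ) ^ j :=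
        h.sum_le_tsum _ fun j _ => by positivity
    _ = 2 := tsum_geometric_two

theorem HH_pos (P : ℕ → ℝ) (k j : ℕ) : 0 < HH P k j := by
  unfold HH
  have : 0 ≤ ∑ i ∈ Finset.Icc (j / 2 - k : ℕ) j, ((2 : ℝ) ^ i * P i) ^ 2 :=
    Finset.sum_nonneg fun i _ => sq_nonneg _
  positivity

theorem t_MAIN2 : S_PO1 → S_MB → S_IND → S_SEQ → S_PZ → S_MEAS → S_OCV → S_CORE → S_REM →
    S_STAR → S_SM → S_CR → S_LC → S_MAIN2 := by
  classical
  intro hPO1 hMB hIND hSEQ hPZ hMEAS hOCV hCORE hREM hSTAR hSM hCR hLC d ε hd hε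
  have hd0 : 0 < d := by omega
  obtain ⟨κ, C₀, r₀, hcore⟩ := hCORE d ε hd0 hε
  obtain ⟨k1, hk1⟩ := hSTAR d ε κ C₀ r₀ hd hε hcore
  obtain ⟨k2, hk2⟩ := hSM d ε κ C₀ r₀ hd hε hcore
  obtain ⟨k3, hk3⟩ := hCR d ε κ C₀ r₀ hd0 hε hcore
  obtain ⟨c₀, k4, hc₀, hk4⟩ := hLC d ε κ C₀ r₀ hd0 hε hcore
  set k : ℕ := max (max k1 k2) (max k3 k4) with hkdef
  obtain ⟨C₁, hC₁, hstar⟩ := hk1 k ((le_max_left _ _).trans (le_max_left _ _))
  obtain ⟨C₂, hC₂, hsm⟩ := hk2 k ((le_max_right _ _).trans (le_max_left _ _))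
  obtain ⟨C₃, hC₃, hcr⟩ := hk3 k ((le_max_left _ _).trans (le_max_right _ _))
  have hlc := hk4 k ((le_max_right _ _).trans (le_max_right _ _))
  set P : ℕ → ℝ := fun j => pp d ε ((2 : ℝ) ^ j) with hPdef
  have hP0 : ∀ j, 0 ≤ P j := fun j => (hcore.rng _).1
  have hP1 : ∀ j, P j ≤ 1 := fun j => (hcore.rng _).2
  have hPanti : Antitone P := fun i j hij =>
    hcore.anti (pow_le_pow_right₀ (by norm_num) hij)
  set G : ℝ := 2 ^ (5 * (k + 1)) with hGdef
  have hG1 : 1 ≤ G := one_le_pow₀ (by norm_num)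
  have hG0 : 0 < G := by linarith
  have hns := hSEQ P k C₁ hPanti hP0 hP1 hC₁ hstar (hREM d ε κ C₀ r₀ hd0 hε hcore)
  set u : ℕ → ℝ := fun j : ℕ => if k ≤ j ∧ P (j - k) ≤ 2 ^ (5 * (k + 1)) * P (j + 1) then
    ((2 : ℝ) ^ j * P j) ^ 2 / ((2 : ℝ) ^ j * P j + HH P k j) else 0 with hudef
  have hg0 : ∀ j, 0 ≤ (2 : ℝ) ^ j * P j := fun j => mul_nonneg (by positivity) (hP0 j)
  have hH0 : ∀ j, 0 < HH P k j := fun j => HH_pos P k j
  have hgH : ∀ j, 0 < (2 : ℝ) ^ j * P j + HH P k j := fun j => by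
    have := hg0 j
    have := hH0 j
    linarith
  have hu0 : ∀ j, 0 ≤ u j := by
    intro j
    simp only [hudef]
    split_ifs
    · exact div_nonneg (sq_nonneg _) (hgH j).le
    · exact le_rfl
  obtain ⟨ρ, hρ⟩ := exists_J u hu0 hns
  -- the constants
  set α : ℝ := c₀ * (3 / (4 * G)) with hαdef
  have hα : 0 < α := by positivity
  set K : ℝ := (C₂ + 4 * C₃) * G ^ 2 with hKdef
  have hK : 0 < K := by positivity
  refine ⟨α ^ 2 / (16 * K), by positivity, ?_⟩
  intro R m A hA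
  obtain ⟨j1, hj1⟩ := hsm (R : ℝ)
  obtain ⟨j2, hj2⟩ := hcr (R : ℝ)
  obtain ⟨j3, hj3⟩ := hlc (R : ℝ) A (1 / (4 * G)) (by positivity) hA
  set j₀ : ℕ := max j1 (max j2 j3) with hj₀
  -- the size of the sum
  set B₀ : ℝ := max 2 (max (4 * c₀ / α) (4 * ((2 * ε + 1) * m) / α)) with hB₀
  obtain ⟨n₁, hn₁⟩ := hρ j₀ B₀
  set good : ℕ → Prop := fun j => k ≤ j ∧ P (j - k) ≤ 2 ^ (5 * (k + 1)) * P (j + 1) with hgood
  set J : Finset ℕ := ((Finset.Ico j₀ n₁).filter (fun j => j % 3 = ρ)).filter good with hJ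
  have hJmem : ∀ j ∈ J, j₀ ≤ j ∧ j < n₁ ∧ j % 3 = ρ ∧ k ≤ j ∧ P (j - k) ≤ G * P (j + 1) := by
    intro j hj
    rw [hJ, Finset.mem_filter, Finset.mem_filter, Finset.mem_Ico] at hj
    exact ⟨hj.1.1.1, hj.1.1.2, hj.1.2, hj.2.1, hj.2.2⟩
  set S : ℝ := ∑ j ∈ J, u j with hS
  have hSB : B₀ ≤ S := by
    refine hn₁.trans (le_of_eq ?_)
    rw [hS, hJ, Finset.sum_filter good]
    refine Finset.sum_congr rfl fun j _ => ?_
    by_cases h : good j
    · rw [if_pos h]
    · rw [if_neg h]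
      simp only [hudef]
      exact if_neg h
  have hS2 : 2 ≤ S := (le_max_left _ _).trans hSB
  have hS3 : 4 * c₀ / α ≤ S := ((le_max_left _ _).trans (le_max_right _ _)).trans hSB
  have hS4 : 4 * ((2 * ε + 1) * m) / α ≤ S := ((le_max_right _ _).trans (le_max_right _ _)).trans hSB
  have hαS : 4 * c₀ ≤ α * S := by
    rw [div_le_iff₀ hα] at hS3
    linarith
  have hαS4 : 4 * ((2 * ε + 1) * m) ≤ α * S := by
    rw [div_le_iff₀ hα] at hS4
    linarith
  -- the radii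
  have hQ₀ex : ∀ j : ℕ, ∃ Q₀ : ℝ, j3 ≤ j → ∀ Q : ℝ, Q₀ ≤ Q →
    PQ d R A * ENNReal.ofReal (c₀ * (2 : ℝ) ^ j * (pp d ε ((2 : ℝ) ^ (j + 1)) -
      1 / (4 * G) * pp d ε ((2 : ℝ) ^ (j - k)) - (1 / 4) ^ j)) ≤
    ∫⁻ F in {F | res (Metric.ball 0 (R : ℝ)) F ∈ A}, Vj ε j F ∂(PQ d Q) := by
    intro j
    by_cases h : j3 ≤ j
    · obtain ⟨Q₀, hQ⟩ := hj3 j h
      exact ⟨Q₀, fun _ => hQ⟩
    · exact ⟨0, fun h' => absurd h' h⟩
  choose Q₁ hQ₁ using hQ₀ex
  refine ⟨((2 ^ n₁ : ℕ) : ℝ), (∑ j ∈ J, |Q₁ j|) + 4 * (2 : ℝ) ^ n₁ + R, ?_⟩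
  intro Q hQ
  have hsumQ : 0 ≤ ∑ j ∈ J, |Q₁ j| := Finset.sum_nonneg fun j _ => abs_nonneg _
  have hRQ : (R : ℝ) ≤ Q := by
    have : (0 : ℝ) ≤ 4 * (2 : ℝ) ^ n₁ := by positivity
    linarith
  have hQ1 : ∀ j ∈ J, Q₁ j ≤ Q := by
    intro j hj
    have h1 : |Q₁ j| ≤ ∑ i ∈ J, |Q₁ i| :=
      Finset.single_le_sum (f := fun i => |Q₁ i|) (fun i _ => abs_nonneg _) hj
    have h2 : (0 : ℝ) ≤ 4 * (2 : ℝ) ^ n₁ := by positivity
    have h3 : (0 : ℝ) ≤ R := Nat.cast_nonneg R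
    have := le_abs_self (Q₁ j)
    linarith
  have hQ2 : ∀ j ∈ J, 4 * (2 : ℝ) ^ j ≤ Q := by
    intro j hj
    have h1 : (2 : ℝ) ^ j ≤ 2 ^ n₁ := pow_le_pow_right₀ (by norm_num) (hJmem j hj).2.1.le
    have h3 : (0 : ℝ) ≤ R := Nat.cast_nonneg R
    linarith
  -- the probability space
  obtain ⟨-, -, -, hMB4⟩ := hMB d hd0
  have hvol : volume (Metric.ball (0 : V d) Q) ≠ ⊤ := measure_ball_lt_top.ne
  have hfin : IsFiniteMeasure (mB (Metric.ball (0 : V d) Q)) :=
    (hMB4 _ measurableSet_ball hvol).1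
  have hunit : PQ d Q {F | ∃ z ∈ F, ‖z.2‖ ≠ 1} = 0 :=
    (hMB4 _ measurableSet_ball hvol).2.2.2
  have hprob : IsProbabilityMeasure (PQ d Q) := (hPO1 d (mB (Metric.ball (0 : V d) Q))).1
  obtain ⟨hMres, hMM⟩ := hMEAS d ε hd0 hε
  have hVmeas : ∀ j : ℕ, Measurable (Vj (d := d) ε j) := by
    obtain ⟨-, -, -, -, -, -, -, -, -, h, -⟩ := hMM
    exact h
  have hresm : Measurable (res (d := d) (Metric.ball 0 (R : ℝ))) := hMres _ measurableSet_ball
  set A' : Set (Finset (X d)) := {F | res (Metric.ball 0 (R : ℝ)) F ∈ A} with hA'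
  have hA'm : MeasurableSet A' := hresm hA
  have hAA : PQ d Q A' = PQ d R A := by
    have h := (hIND d (Metric.ball 0 Q) (Metric.ball 0 (R : ℝ)) ∅ ∅ hd0 measurableSet_ball hvol
      measurableSet_ball MeasurableSet.empty MeasurableSet.empty (Metric.ball_subset_ball hRQ)
      (Set.empty_subset _) (Set.empty_subset _) (Set.disjoint_empty _) (Set.disjoint_empty _)
      (Set.disjoint_empty _) (A.indicator 1) 0 0 (measurable_one.indicator hA) measurable_zero
      measurable_zero).2.1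
    rw [lintegral_indicator_one hA] at h
    have e : (fun F : Finset (X d) => A.indicator (1 : Finset (X d) → ℝ≥0∞)
        (res (Metric.ball 0 (R : ℝ)) F)) = A'.indicator 1 := by
      ext F
      by_cases hF : res (Metric.ball 0 (R : ℝ)) F ∈ A
      · rw [Set.indicator_of_mem hF, Set.indicator_of_mem (show F ∈ A' from hF)]; rfl
      · rw [Set.indicator_of_notMem hF, Set.indicator_of_notMem (show F ∉ A' from hF)]
    rw [e, lintegral_indicator_one hA'm] at h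
    exact h
  -- the weights
  set a : ℕ → ℝ := fun j => ((2 : ℝ) ^ j * P j) / ((2 : ℝ) ^ j * P j + HH P k j) with ha
  have ha0 : ∀ j, 0 ≤ a j := fun j => div_nonneg (hg0 j) (hgH j).le
  have ha1 : ∀ j, a j ≤ 1 := fun j => by
    simp only [ha]
    rw [div_le_one (hgH j)]
    linarith [hH0 j]
  have hau : ∀ j ∈ J, a j * ((2 : ℝ) ^ j * P j) = u j := by
    intro j hj
    simp only [ha, hudef]
    rw [if_pos ⟨(hJmem j hj).2.2.2.1, (hJmem j hj).2.2.2.2⟩]
    ring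
  have haau : ∀ j ∈ J, a j ^ 2 * ((2 : ℝ) ^ j * P j + HH P k j) = u j := by
    intro j hj
    rw [← hau j hj]
    simp only [ha]
    have := (hgH j).ne'
    field_simp
  have hu0J : ∀ j ∈ J, 0 ≤ u j := fun j _ => hu0 j
  have hPjk : ∀ j ∈ J, (2 : ℝ) ^ j * P (j - k) ≤ G * ((2 : ℝ) ^ j * P j) := by
    intro j hj
    have h1 := (hJmem j hj).2.2.2.2
    have h2 : P (j + 1) ≤ P j := hPanti (Nat.le_succ j)
    have h3 : (2 : ℝ) ^ j * P (j - k) ≤ 2 ^ j * (G * P j) :=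
      mul_le_mul_of_nonneg_left (h1.trans (mul_le_mul_of_nonneg_left h2 hG0.le)) (by positivity)
    linarith [h3, mul_left_comm ((2 : ℝ) ^ j) G (P j)]
  have hmain := core_pz hPZ (Finset (X d)) (PQ d Q) A' hA'm J (fun j => Vj ε j) hVmeas a
    (fun j => c₀ * (2 : ℝ) ^ j * (pp d ε ((2 : ℝ) ^ (j + 1)) -
      1 / (4 * G) * pp d ε ((2 : ℝ) ^ (j - k)) - (1 / 4) ^ j))
    (fun j => C₂ * ((2 : ℝ) ^ j * pp d ε ((2 : ℝ) ^ (j - k)) +
        HH (fun i => pp d ε ((2 : ℝ) ^ i)) k j))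
    (fun j => (2 : ℝ) ^ j * pp d ε ((2 : ℝ) ^ (j - k)) + (1 / 2) ^ j) C₃ ha0
    (fun j => mul_nonneg (by linarith) (add_nonneg (mul_nonneg (by positivity) (hP0 (j - k)))
      (hH0 j).le))
    (fun j => add_nonneg (mul_nonneg (by positivity) (hP0 (j - k))) (by positivity))
    (by linarith)
    (by
      intro j hj
      rw [hAA]
      exact hQ₁ j (((le_max_right _ _).trans (le_max_right _ _)).trans (hJmem j hj).1) Q (hQ1 j hj))
    (by
      intro j hj
      rw [hAA]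
      exact hj1 j ((le_max_left _ _).trans (hJmem j hj).1) A Q hA (hQ2 j hj))
    (by
      intro j hj j' hj' hjj
      rw [hAA]
      refine hj2 j j' (((le_max_left _ _).trans (le_max_right _ _)).trans (hJmem j hj).1) ?_ A Q hA
        (hQ2 j' hj')
      have h1 := (hJmem j hj).2.2.1
      have h2 := (hJmem j' hj').2.2.1
      omega)
    (α * S / 2) (α * S / 4) (K * S ^ 2) (by nlinarith) (by nlinarith) (by linarith)
    (by positivity) ?_ ?_
  · -- conclusion
    have hsub : A' ∩ {F | ENNReal.ofReal (α * S / 4) ≤ ∑ j ∈ J, ENNReal.ofReal (a j) * Vj ε j F} ⊆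
        {F | res (Metric.ball 0 (R : ℝ)) F ∈ A ∧ m ≤ Occ ε ((2 ^ n₁ : ℕ) : ℝ) F} ∪
          {F | ∃ z ∈ F, ‖z.2‖ ≠ 1} := by
      rintro F ⟨hF1, hF2⟩
      by_cases hu : ∃ z ∈ F, ‖z.2‖ ≠ 1
      · exact Or.inr hu
      · left
        refine ⟨hF1, ?_⟩
        push Not at hu
        have h1 : ∑ j ∈ J, ENNReal.ofReal (a j) * Vj ε j F ≤
            ENNReal.ofReal (2 * ε + 1) * (Occ ε ((2 ^ n₁ : ℕ) : ℝ) F : ℝ≥0∞) := by
          calc ∑ j ∈ J, ENNReal.ofReal (a j) * Vj ε j F ≤ ∑ j ∈ J, Vj ε j F := by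
                refine Finset.sum_le_sum fun j _ => ?_
                calc ENNReal.ofReal (a j) * Vj ε j F ≤ 1 * Vj ε j F :=
                      mul_le_mul_left (by
                        rw [← ENNReal.ofReal_one]
                        exact ENNReal.ofReal_le_ofReal (ha1 j)) _
                  _ = Vj ε j F := one_mul _
            _ ≤ ∑ j ∈ Finset.range n₁, Vj ε j F :=
                Finset.sum_le_sum_of_subset fun j hj =>
                  Finset.mem_range.2 (hJmem j hj).2.1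
            _ ≤ ∑ i ∈ Finset.range (2 ^ n₁), Un ε (i : ℝ) F := sum_Vj_le ε F n₁
            _ ≤ ∑ i ∈ Finset.range (2 ^ n₁ + 1), Un ε (i : ℝ) F :=
                Finset.sum_le_sum_of_subset fun i hi => by
                  rw [Finset.mem_range] at hi ⊢
                  omega
            _ ≤ _ := hOCV d ε hε F (2 ^ n₁) hu
        have h2 : ENNReal.ofReal (α * S / 4) ≤
            ENNReal.ofReal ((2 * ε + 1) * (Occ ε ((2 ^ n₁ : ℕ) : ℝ) F : ℝ)) := by
          refine (le_trans hF2 h1).trans (le_of_eq ?_)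
          rw [ENNReal.ofReal_mul (by positivity), ENNReal.ofReal_natCast]
        have h3 : α * S / 4 ≤ (2 * ε + 1) * (Occ ε ((2 ^ n₁ : ℕ) : ℝ) F : ℝ) :=
          (ENNReal.ofReal_le_ofReal_iff (by positivity)).1 h2
        have h4 : (2 * ε + 1) * (m : ℝ) ≤ (2 * ε + 1) * (Occ ε ((2 ^ n₁ : ℕ) : ℝ) F : ℝ) := by
          linarith
        have h5 : (m : ℝ) ≤ (Occ ε ((2 ^ n₁ : ℕ) : ℝ) F : ℝ) :=
          le_of_mul_le_mul_left h4 (by positivity)
        exact_mod_cast h5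
    have hconst : (α * S / 2) ^ 2 / (4 * (K * S ^ 2)) = α ^ 2 / (16 * K) := by
      have hS0 : S ≠ 0 := by
        intro h; rw [h] at hS2; linarith
      have hK0 := hK.ne'
      field_simp
      ring
    rw [hconst, hAA] at hmain
    calc PQ d R A * ENNReal.ofReal (α ^ 2 / (16 * K))
        = ENNReal.ofReal (α ^ 2 / (16 * K)) * PQ d R A := mul_comm _ _
      _ ≤ _ := hmain
      _ ≤ PQ d Q ({F | res (Metric.ball 0 (R : ℝ)) F ∈ A ∧ m ≤ Occ ε ((2 ^ n₁ : ℕ) : ℝ) F} ∪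
          {F | ∃ z ∈ F, ‖z.2‖ ≠ 1}) := measure_mono hsub
      _ ≤ PQ d Q {F | res (Metric.ball 0 (R : ℝ)) F ∈ A ∧ m ≤ Occ ε ((2 ^ n₁ : ℕ) : ℝ) F} +
          PQ d Q {F | ∃ z ∈ F, ‖z.2‖ ≠ 1} := measure_union_le _ _
      _ = _ := by rw [hunit, add_zero]
  · -- first moment
    have h1 : ∀ j ∈ J, α * u j - c₀ * (1 / 2) ^ j ≤
        a j * (c₀ * (2 : ℝ) ^ j * (pp d ε ((2 : ℝ) ^ (j + 1)) -
          1 / (4 * G) * pp d ε ((2 : ℝ) ^ (j - k)) - (1 / 4) ^ j)) := by
      intro j hj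
      have hgd := (hJmem j hj).2.2.2.2
      have hjk : P j ≤ P (j - k) := hPanti (Nat.sub_le j k)
      have e1 : 3 / (4 * G) * P j ≤ P (j + 1) - 1 / (4 * G) * P (j - k) := by
        have h2 : P (j - k) / G ≤ P (j + 1) := by
          rw [div_le_iff₀ hG0]
          linarith
        have h3 : P j / G ≤ P (j - k) / G := div_le_div_of_nonneg_right hjk hG0.le
        have h4 : 3 / (4 * G) * P j = 3 / 4 * (P j / G) := by
          field_simp
        have h5 : 1 / (4 * G) * P (j - k) = 1 / 4 * (P (j - k) / G) := by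
          field_simp
        rw [h4, h5]
        linarith
      have e2 : (2 : ℝ) ^ j * (1 / 4) ^ j = (1 / 2) ^ j := by
        rw [← mul_pow]
        norm_num
      have e3 : (2 : ℝ) ^ j * (3 / (4 * G) * P j) ≤
          2 ^ j * (P (j + 1) - 1 / (4 * G) * P (j - k)) :=
        mul_le_mul_of_nonneg_left e1 (by positivity)
      have e4 : c₀ * (3 / (4 * G) * ((2 : ℝ) ^ j * P j) - (1 / 2) ^ j) ≤
          c₀ * (2 : ℝ) ^ j * (P (j + 1) - 1 / (4 * G) * P (j - k) - (1 / 4) ^ j) := by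
        have : c₀ * (2 : ℝ) ^ j * (P (j + 1) - 1 / (4 * G) * P (j - k) - (1 / 4) ^ j) =
            c₀ * ((2 : ℝ) ^ j * (P (j + 1) - 1 / (4 * G) * P (j - k)) -
              (2 : ℝ) ^ j * (1 / 4) ^ j) := by ring
        rw [this, e2]
        refine mul_le_mul_of_nonneg_left ?_ hc₀.le
        linarith
      have e5 := mul_le_mul_of_nonneg_left e4 (ha0 j)
      have e6 : a j * (c₀ * (3 / (4 * G) * ((2 : ℝ) ^ j * P j) - (1 / 2) ^ j)) =
          α * u j - c₀ * (a j * (1 / 2) ^ j) := by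
        rw [← hau j hj, hαdef]
        ring
      have e7 : a j * (1 / 2 : ℝ) ^ j ≤ (1 / 2) ^ j :=
        mul_le_of_le_one_left (by positivity) (ha1 j)
      have e8 := mul_le_mul_of_nonneg_left e7 hc₀.le
      rw [e6] at e5
      linarith
    have h2 := Finset.sum_le_sum h1
    rw [Finset.sum_sub_distrib, ← Finset.mul_sum, ← Finset.mul_sum] at h2
    have h3 := mul_le_mul_of_nonneg_left (sum_half_le J) hc₀.le
    refine le_trans ?_ h2
    rw [← hS]
    linarith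
  · -- second moment
    have h1 : ∑ j ∈ J, a j ^ 2 * (C₂ * ((2 : ℝ) ^ j * pp d ε ((2 : ℝ) ^ (j - k)) +
        HH (fun i => pp d ε ((2 : ℝ) ^ i)) k j)) ≤ C₂ * G * S := by
      rw [hS, Finset.mul_sum]
      refine Finset.sum_le_sum fun j hj => ?_
      have e1 : (2 : ℝ) ^ j * P (j - k) + HH P k j ≤ G * ((2 : ℝ) ^ j * P j + HH P k j) := by
        have := hPjk j hj
        have h5 : HH P k j ≤ G * HH P k j := le_mul_of_one_le_left (hH0 j).le hG1
        linarith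
      have e2 := mul_le_mul_of_nonneg_left e1 (mul_nonneg (by linarith : (0 : ℝ) ≤ C₂) (sq_nonneg (a j)))
      have e3 := haau j hj
      calc a j ^ 2 * (C₂ * ((2 : ℝ) ^ j * P (j - k) + HH P k j))
          = C₂ * a j ^ 2 * ((2 : ℝ) ^ j * P (j - k) + HH P k j) := by ring
        _ ≤ C₂ * a j ^ 2 * (G * ((2 : ℝ) ^ j * P j + HH P k j)) := e2
        _ = C₂ * G * (a j ^ 2 * ((2 : ℝ) ^ j * P j + HH P k j)) := by ring
        _ = C₂ * G * u j := by rw [e3]
    have h2 : ∑ j ∈ J, a j * ((2 : ℝ) ^ j * pp d ε ((2 : ℝ) ^ (j - k)) + (1 / 2) ^ j) ≤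
        G * S + 2 := by
      have e1 : ∀ j ∈ J, a j * ((2 : ℝ) ^ j * pp d ε ((2 : ℝ) ^ (j - k)) + (1 / 2) ^ j) ≤
          G * u j + (1 / 2) ^ j := by
        intro j hj
        have e2 := mul_le_mul_of_nonneg_left (hPjk j hj) (ha0 j)
        have e3 : a j * (1 / 2 : ℝ) ^ j ≤ (1 / 2) ^ j :=
          mul_le_of_le_one_left (by positivity) (ha1 j)
        have e4 : a j * (G * ((2 : ℝ) ^ j * P j)) = G * u j := by
          rw [← hau j hj]; ring
        have e5 : a j * ((2 : ℝ) ^ j * pp d ε ((2 : ℝ) ^ (j - k)) + (1 / 2) ^ j) =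
            a j * ((2 : ℝ) ^ j * P (j - k)) + a j * (1 / 2) ^ j := by
          simp only [hPdef]
          ring
        rw [e5]
        linarith
      refine (Finset.sum_le_sum e1).trans ?_
      rw [Finset.sum_add_distrib, ← Finset.mul_sum, ← hS]
      have := sum_half_le J
      linarith
    have h3 : 0 ≤ ∑ j ∈ J, a j * ((2 : ℝ) ^ j * pp d ε ((2 : ℝ) ^ (j - k)) + (1 / 2) ^ j) :=
      Finset.sum_nonneg fun j _ => mul_nonneg (ha0 j)
        (add_nonneg (mul_nonneg (by positivity) (hP0 (j - k))) (by positivity))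
    have h4 : G * S + 2 ≤ 2 * (G * S) := by nlinarith
    have h5 : (∑ j ∈ J, a j * ((2 : ℝ) ^ j * pp d ε ((2 : ℝ) ^ (j - k)) + (1 / 2) ^ j)) ^ 2 ≤
        (2 * (G * S)) ^ 2 := pow_le_pow_left₀ h3 (h2.trans h4) 2
    have h6 : C₂ * G * S ≤ C₂ * (G ^ 2 * S ^ 2) := by
      have h7 : G * S ≤ G ^ 2 * S ^ 2 := by
        have h8 : 1 ≤ G * S := by nlinarith
        nlinarith
      have := mul_le_mul_of_nonneg_left h7 (by linarith : (0 : ℝ) ≤ C₂)
      linarith [mul_assoc C₂ G S]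
    have h7 := mul_le_mul_of_nonneg_left h5 (by linarith : (0 : ℝ) ≤ C₃)
    have h8 : K * S ^ 2 = C₂ * (G ^ 2 * S ^ 2) + C₃ * (2 * (G * S)) ^ 2 := by
      rw [hKdef]; ring
    rw [h8]
    linarith

end Run7.h559.Met
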